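import Mathlib

namespace Pool.Agent.H.MP_947ed7_lc
open Set Filter Topology

def Emb {X Y : Type} [TopologicalSpace X] [TopologicalSpace Y] (f g : X → Y) : Prop :=
  ∃ (σ : X → X) (τ : Y → Y), IsEmbedding σ ∧ IsEmbedding τ ∧ g ∘ σ = τ ∘ f

def B1 {X Y : Type} [TopologicalSpace X] [TopologicalSpace Y] (f : X → Y) : Prop :=
  ∀ U : Set Y, IsOpen U → IsGδ (f ⁻¹' U)ᶜ

def Bor {X Y : Type} [TopologicalSpace X] [TopologicalSpace Y] (f : X → Y) : Prop :=
  ∀ U : Set Y, IsOpen U → @MeasurableSet X (borel X) (f ⁻¹' U)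

def Bqo {Q : Type} (le : Q → Q → Prop) : Prop :=
  ¬ ∃ A : Set ℕ, A.Infinite ∧
    ∃ h : {b : ℕ → Bool // {n | b n = true}.Infinite ∧ {n | b n = true} ⊆ A} → Q,
      (range h).Countable ∧ (∀ q, IsOpen (h ⁻¹' {q})) ∧
      ∀ b c, (∃ m, IsLeast {n | b.1 n = true} m ∧ {n | c.1 n = true} = {n | b.1 n = true} \ {m}) →
        ¬ le (h b) (h c)

noncomputable def lo (x : ℕ → Bool) : ℕ := sInf {k | x k = true}

def pt (k : ℕ) : ℕ → Bool := fun i => decide (i = k)

open Classical in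
noncomputable def F (n : ℕ) (x : ℕ → Bool) : ℕ :=
  if x = fun _ => false then n + 2 else if x = pt (lo x) then lo x % (n + 2) else (lo x + 1) % (n + 2)

lemma lo_eq {x : ℕ → Bool} {k : ℕ} (h : IsLeast {n | x n = true} k) : lo x = k := h.csInf_eq

lemma lo_least {x : ℕ → Bool} (h : x ≠ fun _ => false) : IsLeast {n | x n = true} (lo x) := by
  have : {n | x n = true}.Nonempty := by
    by_contra h2
    refine h (funext fun i => ?_)
    by_contra h3
    exact h2 ⟨i, by simpa using h3⟩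
  exact ⟨Nat.sInf_mem this, fun _ hb => Nat.sInf_le hb⟩

lemma least_nhds {x : ℕ → Bool} {k : ℕ} (h : IsLeast {n | x n = true} k) :
    ∀ᶠ y in 𝓝 x, IsLeast {n | y n = true} k := by
  have : ∀ᶠ y : ℕ → Bool in 𝓝 x, ∀ i ∈ Iic k, y i = x i :=
    (eventually_all_finite (finite_Iic k)).2 fun i _ =>
      (continuous_apply i).continuousAt.eventually (isOpen_discrete {x i} |>.mem_nhds rfl)
  refine this.mono fun y hy => ⟨(hy k (mem_Iic.2 le_rfl)).trans h.1, fun j hj => ?_⟩
  by_contra h2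
  exact h2 (h.2 ((hy j (not_le.1 h2).le).symm.trans hj))

lemma pt_least (k : ℕ) : IsLeast {n | pt k n = true} k :=
  ⟨by simp [pt], fun j hj => by simp [pt] at hj; exact hj.ge⟩

lemma ne0 {x : ℕ → Bool} {k : ℕ} (h : IsLeast {n | x n = true} k) : x ≠ fun _ => false := by
  rintro rfl; exact absurd h.1 (by simp)

lemma F_pt (n k : ℕ) : F n (pt k) = k % (n + 2) := by
  rw [F, if_neg (ne0 (pt_least k)), lo_eq (pt_least k), if_pos rfl]

lemma F_near (n : ℕ) {x : ℕ → Bool} (h : x ≠ fun _ => false) :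
    ∀ᶠ y in 𝓝 x, y = pt (lo x) ∨ F n y = (lo x + 1) % (n + 2) := by
  refine (least_nhds (lo_least h)).mono fun y hy => ?_
  by_cases h2 : y = pt (lo x)
  · exact Or.inl h2
  · right; rw [F, if_neg (ne0 hy), lo_eq hy, if_neg h2]

lemma F_b1 (n : ℕ) : B1 (F n) := by
  intro U _
  set D : Set (ℕ → Bool) := insert (fun _ => false) (range pt)
  have hD : D.Countable := (countable_range pt).insert _
  have : (F n ⁻¹' U)ᶜ = (⋂ x ∈ D ∩ F n ⁻¹' U, {x}ᶜ) ∩ ⋂ k ∈ {k : ℕ | (k + 1) % (n + 2) ∈ U},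
      ({x | IsLeast {i | x i = true} k}ᶜ ∪ {pt k}) := by
    ext x
    simp only [mem_inter_iff, mem_iInter, mem_compl_iff, mem_union, mem_singleton_iff,
      mem_preimage, Set.mem_ofPred_eq]
    constructor
    · intro hx
      refine ⟨fun y hy e => hx (e ▸ hy.2), fun k hk => ?_⟩
      by_contra h3
      push Not at h3
      apply hx
      rwa [F, if_neg (ne0 h3.1), lo_eq h3.1, if_neg h3.2]
    · rintro ⟨h1, h2⟩ hx
      have h3 : x ∉ D := fun h => h1 x ⟨h, hx⟩ rfl
      have h4 : x ≠ fun _ => false := fun h => h3 (Or.inl h)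
      have h5 : x ≠ pt (lo x) := fun h => h3 (Or.inr ⟨_, h.symm⟩)
      rw [F, if_neg h4, if_neg h5] at hx
      exact (h2 _ hx).elim (fun h => h (lo_least h4)) h5
  rw [this]
  refine (IsGδ.biInter_of_isOpen (hD.mono inter_subset_left) fun x _ => isOpen_compl_singleton).inter
    (IsGδ.biInter (to_countable _) fun k _ => IsGδ.union (IsClosed.isGδ ?_) isClosed_singleton.isGδ)
  exact isClosed_compl_iff.2 (isOpen_iff_mem_nhds.2 fun x hx => least_nhds hx)

lemma F_lt (n : ℕ) {x : ℕ → Bool} (h : x ≠ fun _ => false) : F n x < n + 2 := by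
  rw [F, if_neg h]; split_ifs <;> exact Nat.mod_lt _ (by omega)

def tw (k j : ℕ) : ℕ → Bool := fun i => decide (i = k ∨ i = k + 1 + j)

lemma tw_F (n k j : ℕ) : F n (tw k j) = (k + 1) % (n + 2) := by
  have h : IsLeast {i | tw k j i = true} k :=
    ⟨by simp [tw], fun i hi => by simp [tw] at hi; omega⟩
  rw [F, if_neg (ne0 h), lo_eq h, if_neg]
  intro e
  have := congrFun e (k + 1 + j)
  simp [tw, pt] at this
  omega

lemma tw_lim (k : ℕ) : Tendsto (tw k) atTop (𝓝 (pt k)) := by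
  refine tendsto_pi_nhds.2 fun i => tendsto_nhds_of_eventually_eq ?_
  refine (eventually_ge_atTop i).mono fun j hj => ?_
  have : i ≠ k + 1 + j := by omega
  simp [tw, pt, this]

theorem anti (n m : ℕ) (h : Emb (F n) (F m)) : n = m := by
  obtain ⟨σ, τ, h1, h2, h3⟩ := h
  have e : ∀ x, F m (σ x) = τ (F n x) := congrFun h3
  have h0 : ∀ k, σ (pt k) ≠ fun _ => false := by
    intro k hk
    have a := e (pt k)
    have b := e (pt (k + (n + 2)))
    rw [F_pt] at a b
    rw [Nat.add_mod_right, ← a, hk] at b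
    have c : σ (pt (k + (n + 2))) = fun _ => false := by
      by_contra hc
      have := F_lt m hc
      rw [b, F, if_pos rfl] at this
      omega
    have d := congrFun (h1.injective (hk.trans c.symm)) k
    simp [pt] at d
  have h4 : ∀ k, τ (k % (n + 2)) < m + 2 := fun k => by
    rw [← F_pt, ← e]; exact F_lt m (h0 k)
  have h5 : ∀ k, τ ((k + 1) % (n + 2)) = (τ (k % (n + 2)) + 1) % (m + 2) := by
    intro k
    have hne : τ ((k + 1) % (n + 2)) ≠ τ (k % (n + 2)) := by
      intro h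
      have h6 : k + 1 ≡ k + 0 [MOD (n + 2)] := h2.injective h
      have h7 := Nat.le_of_dvd one_pos ((Nat.modEq_zero_iff_dvd).1 (Nat.ModEq.add_left_cancel' k h6))
      omega
    have h6 := ((h1.continuous.tendsto _).comp (tw_lim k)).eventually (F_near m (h0 k))
    have h7 : ∀ j, F m (σ (tw k j)) = τ ((k + 1) % (n + 2)) := fun j => by rw [e, tw_F]
    have h8 : F m (σ (pt k)) = τ (k % (n + 2)) := by rw [e, F_pt]
    have h9 : ∀ᶠ j in atTop, F m (σ (tw k j)) = (lo (σ (pt k)) + 1) % (m + 2) := by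
      obtain ⟨N, hN⟩ := eventually_atTop.1 h6
      by_cases hc : ∃ j ≥ N, σ (tw k j) = pt (lo (σ (pt k)))
      · obtain ⟨j, -, hj⟩ := hc
        refine (eventually_ge_atTop (max N (j + 1))).mono fun i hi => (hN i (le_of_max_le_left hi)).resolve_left fun h => ?_
        have := congrFun (h1.injective (hj.trans (Eq.symm h))) (k + 1 + i)
        have := le_of_max_le_right hi
        simp [tw] at *
        omega
      · exact (eventually_ge_atTop N).mono fun i hi => (hN i hi).resolve_left fun h => hc ⟨i, hi, h⟩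
    obtain ⟨j, hj⟩ := h9.exists
    rw [h7] at hj
    rw [F, if_neg (h0 k)] at h8
    split_ifs at h8
    · rw [hj, ← h8, Nat.mod_add_mod]
    · exact absurd (hj.trans h8) hne
  have h6 : ∀ k, τ (k % (n + 2)) = (τ 0 + k) % (m + 2) := by
    intro k
    induction k with
    | zero => simpa using (Nat.mod_eq_of_lt (by simpa using h4 0)).symm
    | succ k ih => rw [h5, ih, Nat.mod_add_mod, add_assoc]
  have a := h6 (n + 2)
  have b := h6 (m + 2)
  have c := h6 0
  rw [Nat.mod_self] at a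
  rw [Nat.zero_mod] at c
  rw [Nat.add_mod_right, ← add_zero (τ 0), ← c] at b
  have d : τ 0 + (n + 2) ≡ τ 0 + 0 [MOD (m + 2)] := a.symm.trans c
  have d1 := Nat.le_of_dvd (by omega) (Nat.modEq_zero_iff_dvd.1 (Nat.ModEq.add_left_cancel' _ d))
  have d2 := Nat.le_of_dvd (by omega) (Nat.dvd_of_mod_eq_zero (h2.injective b))
  omega

lemma nb {Q : Type} (le : Q → Q → Prop) (f : ℕ → Q) (hf : ∀ n m, le (f n) (f m) → n = m) :
    ¬ Bqo le := by
  refine fun h => h ⟨univ, infinite_univ, fun b => f (lo b.1), ?_, fun q => ?_, ?_⟩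
  · exact (countable_range f).mono (by rintro _ ⟨b, rfl⟩; exact ⟨_, rfl⟩)
  · refine isOpen_iff_mem_nhds.2 fun b hb => ?_
    have h1 : b.1 ≠ fun _ => false := fun e => b.2.1 (by rw [e]; simp)
    filter_upwards [continuous_subtype_val.continuousAt.eventually (least_nhds (lo_least h1))] with c hc
    show f (lo c.1) = q
    rw [lo_eq hc]; exact hb
  · rintro b c ⟨m, h1, h2⟩ h3
    have h4 : c.1 ≠ fun _ => false := fun e => c.2.1 (by rw [e]; simp)
    have h5 := (lo_least h4).1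
    rw [h2, ← hf _ _ h3, lo_eq h1] at h5
    exact h5.2 rfl

theorem main : (∃ f : ℕ → (ℕ → Bool) → ℕ, (∀ n, B1 (f n)) ∧ ∀ n m, Emb (f n) (f m) → n = m) ∧
    (¬ Bqo fun f g : {f : (ℕ → Bool) → ℕ // B1 f} => Emb f.1 g.1) ∧
    ¬ Bqo fun f g : {f : (ℕ → Bool) → ℕ // Bor f} => Emb f.1 g.1 :=
  ⟨⟨F, F_b1, anti⟩, nb _ (fun n => ⟨F n, F_b1 n⟩) anti,
    nb _ (fun n => ⟨F n, fun U hU => by
      have := MeasurableSet.of_compl (F_b1 n U hU).measurableSet
      rwa [BorelSpace.measurable_eq (α := ℕ → Bool)] at this⟩) anti⟩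

end Pool.Agent.H.MP_947ed7_lc
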